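import Pool.Agent.Helper29.AR.Props
import Pool.Agent.Helper13.SR.TTr
import Pool.Agent.Helper89.SR.TTrM
import Pool.Agent.Helper86.SR.MinM
import Pool.Agent.Helper48.SR.NearC
import Pool.Agent.Helper81.SR.TDivSr

/-!
# MP_b55b7c_an, project AR: adaptations of packets of project SR

The proofs are those of the packets of project SR, with approximate stable rank one instead of
stable rank one.
-/

open scoped ENNReal NNReal InnerProductSpace ComplexOrder
open Filter Topology

attribute [-instance] CStarMatrix.instAlgebra CStarMatrix.instModule CStarMatrix.instSMul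
  CStarMatrix.instMulAction CStarMatrix.instDistribMulAction

set_option linter.unusedSectionVars false

noncomputable section
namespace RC
universe u

open MinM86

/-! Adapted from `Helper13/SR/TTr.lean`. -/

theorem tTrLP (hX : XMaxLP.{u}) : TTrLP.{u} := by
  intro M _ _ _ hsr a b ha hb hab δ ε hδ hε
  have ha1 := ttr_sqrt_mul a ha
  have hb1 := ttr_sqrt_mul b hb
  have ha10 : 0 ≤ cfc Real.sqrt a := cfc_nonneg fun t _ => Real.sqrt_nonneg t
  have hb10 : 0 ≤ cfc Real.sqrt b := cfc_nonneg fun t _ => Real.sqrt_nonneg t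
  have hd : ∀ (φ : TState M) (σ : QTrace M), IsQ φ σ →
      σ.dim (one1 (cfc Real.sqrt a)) < σ.dim (one1 (cfc Real.sqrt b)) := by
    intro φ σ h
    rw [ttr_dim_sqrt σ a ha, ttr_dim_sqrt σ b hb]
    exact hab φ σ h
  set a₁ := cfc Real.sqrt a with ha₁
  set b₁ := cfc Real.sqrt b with hb₁
  have hδ1 : 0 < √δ := Real.sqrt_pos.2 hδ
  have hε1 : 0 < ε / (‖a‖ + 1) := by positivity
  obtain ⟨X, η, hη, hφ⟩ := hX M hsr a₁ b₁ ha10 hb10 hd (√δ) (ε / (‖a‖ + 1)) hδ1 hε1
  set e := cfc (ramp (√δ / 2) (√δ)) a₁ with he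
  set V := b₁ * X * a₁ with hV
  set k := cfc (ramp (η / 2) η) (e * sq V * e) with hk
  have hesa : IsSelfAdjoint e := cfc_predicate _ _
  have ha1sa : IsSelfAdjoint a₁ := ha10.isSelfAdjoint
  have hb1sa : IsSelfAdjoint b₁ := hb10.isSelfAdjoint
  set r := cfc (fun t : ℝ => √(max (t ^ 2 - δ) 0)) a₁ with hr
  have hrsa : IsSelfAdjoint r := cfc_predicate _ _
  -- `e r = r`
  have hsp : ∀ t ∈ spectrum ℝ a₁, 0 ≤ t := fun t ht => spectrum_nonneg_of_nonneg ha10 ht
  have hcr : Continuous (fun t : ℝ => √(max (t ^ 2 - δ) 0)) := by fun_prop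
  have her : e * r = r := by
    rw [he, hr, ← cfc_mul _ _ a₁ (ttr_ramp_cont _ _).continuousOn hcr.continuousOn]
    refine cfc_congr fun t ht => ?_
    rcases le_total t (√δ) with h | h
    · have h1 : t ^ 2 - δ ≤ 0 := by
        have := pow_le_pow_left₀ (hsp t ht) h 2
        rw [Real.sq_sqrt hδ.le] at this
        linarith
      rw [max_eq_right h1, Real.sqrt_zero, mul_zero]
    · have h1 : ramp (√δ / 2) (√δ) t = 1 := by
        unfold ramp
        have h2 : 1 ≤ (t - √δ / 2) / (√δ - √δ / 2) := by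
          rw [le_div_iff₀ (by linarith)]
          linarith
        rw [min_eq_left h2, max_eq_right zero_le_one]
      rw [h1, one_mul]
  have hre : r * e = r := by
    have := congrArg star her
    rwa [star_mul, hrsa.star_eq, hesa.star_eq] at this
  -- `r r = (a - δ)_+`
  have hrr : r * r = cut a δ := by
    rw [hr, ← cfc_mul _ _ a₁ hcr.continuousOn hcr.continuousOn]
    unfold cut
    have e1 : cfc (fun t : ℝ => max (t - δ) 0) a =
        cfc (fun t : ℝ => max (√t * √t - δ) 0) a := by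
      refine cfc_congr fun t ht => ?_
      rw [Real.mul_self_sqrt (spectrum_nonneg_of_nonneg ha ht)]
    rw [e1, cfc_comp' (fun t : ℝ => max (t * t - δ) 0) Real.sqrt a, ← ha₁]
    refine cfc_congr fun t _ => ?_
    rw [Real.mul_self_sqrt (le_max_right _ _), pow_two]
  -- bounds for `k`
  have hW : 0 ≤ e * sq V * e := ttr_conj_nonneg e _ hesa (star_mul_self_nonneg V)
  have hk1 : k ≤ 1 := by
    refine cfc_le_one _ _ fun t _ => ?_
    unfold ramp
    exact max_le zero_le_one (min_le_left _ _)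
  have hk2 : k ≤ (2 / η) • (e * sq V * e) := by
    have e1 : (2 / η) • (e * sq V * e) = cfc (fun t : ℝ => (2 / η) * t) (e * sq V * e) := by
      rw [cfc_const_mul (2 / η) (fun t : ℝ => t) (e * sq V * e), cfc_id' ℝ _ hW.isSelfAdjoint]
    rw [e1, hk]
    refine cfc_mono (fun t ht => ?_) (ttr_ramp_cont _ _).continuousOn (by fun_prop)
    have ht0 := spectrum_nonneg_of_nonneg hW ht
    unfold ramp
    refine max_le (by positivity) ?_
    rcases le_total t (η / 2) with h | h
    · refine (min_le_right _ _).trans ?_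
      have h1 : (t - η / 2) / (η - η / 2) ≤ 0 := div_nonpos_of_nonpos_of_nonneg (by linarith)
        (by linarith)
      have h2 : 0 ≤ 2 / η * t := by positivity
      linarith
    · refine (min_le_left _ _).trans ?_
      rw [div_mul_eq_mul_div, le_div_iff₀ hη]
      linarith
  have hE : 0 ≤ e * (1 - k) * e := ttr_conj_nonneg e _ hesa (sub_nonneg.2 hk1)
  have hrE : r * (e * (1 - k) * e) * r = r * (1 - k) * r := by
    calc r * (e * (1 - k) * e) * r = (r * e) * (1 - k) * (e * r) := by simp only [mul_assoc]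
      _ = r * (1 - k) * r := by rw [her, hre]
  refine ⟨√(2 / η) • (X * a₁ * r), r * (1 - k) * r, ttr_conj_nonneg r _ hrsa (sub_nonneg.2 hk1),
    ?_, ?_⟩
  · have e1 : r * k * r ≤ star (√(2 / η) • (X * a₁ * r)) * b * (√(2 / η) • (X * a₁ * r)) := by
      have e2 := ttr_conj_le r _ _ hrsa hk2
      refine e2.trans (le_of_eq ?_)
      have e3 : star (√(2 / η) • (X * a₁ * r)) = √(2 / η) • (r * a₁ * star X) := by
        rw [star_smul, star_mul, star_mul, ha1sa.star_eq, hrsa.star_eq, star_trivial, mul_assoc]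
      have e4 : sq V = a₁ * star X * b * X * a₁ := by
        simp only [sq, hV, star_mul, ha1sa.star_eq, hb1sa.star_eq]
        rw [← hb1]
        simp only [mul_assoc]
      have e5 : r * (e * sq V * e) * r = r * sq V * r := by
        calc r * (e * sq V * e) * r = (r * e) * sq V * (e * r) := by simp only [mul_assoc]
          _ = r * sq V * r := by rw [her, hre]
      rw [e3, mul_smul_comm, smul_mul_assoc, e5, e4]
      simp only [smul_mul_assoc, mul_smul_comm, smul_smul]
      rw [Real.mul_self_sqrt (by positivity)]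
      simp only [mul_assoc]
    have e6 : cut a δ = r * k * r + r * (1 - k) * r := by
      rw [← hrr]
      noncomm_ring
    calc a ≤ cut a δ + δ • (1 : M) := le_cut_add ha.isSelfAdjoint δ
      _ = r * k * r + r * (1 - k) * r + δ • (1 : M) := by rw [e6]
      _ ≤ _ := by gcongr
  · intro φ
    rw [← hrE]
    have e1 : r * r ≤ ‖a‖ • (1 : M) := by
      rw [hrr]
      refine (cut_le ha hδ.le).trans ?_
      have := IsSelfAdjoint.le_algebraMap_norm_self (a := a) ha.isSelfAdjoint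
      rwa [Algebra.algebraMap_eq_smul_one] at this
    have e2 := ttr_trace_le φ r _ ‖a‖ hE e1
    have e3 := hφ φ
    have e4 : ‖a‖ * (ε / (‖a‖ + 1)) ≤ ε := by
      rw [mul_div_assoc', div_le_iff₀ (by positivity)]
      nlinarith [norm_nonneg a]
    have e5 := mul_le_mul_of_nonneg_left e3 (norm_nonneg a)
    linarith


/-! Adapted from `Helper89/SR/TTrM.lean`. -/

theorem tTrMLP (hM : QMonoP.{u}) (hB : QBasicP.{u}) (hD : QDsumP.{u}) (h1 : TTrLP.{u})
    (h2 : MatASRP.{u}) (h3 : MatTP.{u}) : TTrMLP.{u} := by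
  intro M _ _ _ hSR ι κ _ _ _ _ a b ha hb hab δ ε hδ hε
  rcases isEmpty_or_nonempty (ι ⊕ κ) with he | hne
  · have hι : IsEmpty ι := ⟨fun i => he.false (Sum.inl i)⟩
    have hsub : ∀ x y : CStarMatrix ι ι M, x = y := fun x y => by
      ext i; exact (hι.false i).elim
    refine ⟨0, 0, le_rfl, le_of_eq (hsub _ _), fun φ σ hσ => ?_⟩
    rw [QTrace.zero]
    exact hε.le
  · have hN : 0 < (Fintype.card (ι ⊕ κ) : ℝ) := by exact_mod_cast Fintype.card_pos
    obtain ⟨m1, m2⟩ := h3 M (ι ⊕ κ)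
    have hz1 : ∀ σ : QTrace M, σ.dim (0 : CStarMatrix κ κ M) = 0 := fun σ =>
      le_antisymm (domM_dim_zero hM hB σ κ) (hB M σ κ 0 le_rfl).2.1
    have hz2 : ∀ σ : QTrace M, σ.dim (0 : CStarMatrix ι ι M) = 0 := fun σ =>
      le_antisymm (domM_dim_zero hM hB σ ι) (hB M σ ι 0 le_rfl).2.1
    have hda : 0 ≤ dsum a (0 : CStarMatrix κ κ M) := dsum_nonneg ha le_rfl
    have hdb : 0 ≤ dsum (0 : CStarMatrix ι ι M) b := dsum_nonneg le_rfl hb
    obtain ⟨Y, H, hH, hle, hsm⟩ := h1 (CStarMatrix (ι ⊕ κ) (ι ⊕ κ) M) (h2 M hSR (ι ⊕ κ))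
      (dsum a (0 : CStarMatrix κ κ M)) (dsum (0 : CStarMatrix ι ι M) b) hda hdb (by
        intro φ' σ' hq
        obtain ⟨ψ, σ, hψ, -, hd⟩ := m1 φ' σ' hq
        rw [hd _ hda, hd _ hdb, (hD M σ ι κ a 0 ha le_rfl).2, (hD M σ ι κ 0 b le_rfl hb).2,
          hz1, hz2, add_zero, zero_add]
        exact (div_lt_div_iff_of_pos_right hN).2 (hab ψ σ hψ)) δ (ε / Fintype.card (ι ⊕ κ)) hδ
      (div_pos hε hN)
    set J : CStarMatrix (ι ⊕ κ) ι M := inlM M ι κ with hJ
    set K : CStarMatrix (ι ⊕ κ) κ M := inrM M ι κ with hK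
    refine ⟨K.conjTranspose * Y * J, J.conjTranspose * H * J, cm_conj_nonneg' J hH, ?_, ?_⟩
    · have e1 := cm_conj_le' J hle
      have e2 : J.conjTranspose * dsum a (0 : CStarMatrix κ κ M) * J = a := by
        rw [← inlM_conj a, ← hJ]
        calc J.conjTranspose * (J * a * J.conjTranspose) * J
            = (J.conjTranspose * J) * a * (J.conjTranspose * J) := by
              simp only [cm_assoc]
          _ = a := by rw [hJ, trm_inl_inl, cm_one_mul, cm_mul_one]
      have e3 : J.conjTranspose * (star Y * dsum (0 : CStarMatrix ι ι M) b * Y) * J =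
          (K.conjTranspose * Y * J).conjTranspose * b * (K.conjTranspose * Y * J) := by
        rw [← inrM_conj b, ← hK, ← cm_star_eq, cm_conj_mul, cm_conj_mul, cm_conj_conj]
        simp only [cm_assoc]
      have e4 : J.conjTranspose * (δ • (1 : CStarMatrix (ι ⊕ κ) (ι ⊕ κ) M)) * J =
          δ • (1 : CStarMatrix ι ι M) := by
        rw [cm_mul_rsmul, cm_rsmul_mul, cm_mul_one, hJ, trm_inl_inl]
      have e5 : ∀ X Z : CStarMatrix (ι ⊕ κ) (ι ⊕ κ) M,
          J.conjTranspose * (X + Z) * J = J.conjTranspose * X * J + J.conjTranspose * Z * J := by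
        intro X Z
        have g1 : J.conjTranspose * (X + Z) = J.conjTranspose * X + J.conjTranspose * Z :=
          Matrix.mul_add _ _ _
        rw [g1]
        exact Matrix.add_mul _ _ _
      rw [e2, e5, e5, e3, e4] at e1
      exact e1
    · intro φ σ hq
      obtain ⟨ψ', σ', hq', hv, -⟩ := m2 φ σ hq
      have e1 := hsm ψ'
      rw [hv H] at e1
      have e2 : ((Fintype.card (ι ⊕ κ) : ℂ)⁻¹ * ∑ i, φ.φ (H i i)).re =
          (Fintype.card (ι ⊕ κ) : ℝ)⁻¹ * ∑ i, (φ.φ (H i i)).re := by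
        rw [← Complex.ofReal_natCast, ← Complex.ofReal_inv, Complex.re_ofReal_mul,
          Complex.re_sum]
      rw [e2, inv_mul_le_iff₀ hN, mul_div_cancel₀ _ hN.ne'] at e1
      rw [hq ι]
      have e3 : ∀ i : ι ⊕ κ, 0 ≤ (φ.φ (H i i)).re := fun i =>
        (Complex.le_def.1 (φ.nonneg _ (Pool.Agent.Helper6.RC.diag_nonneg hH i))).1
      have e4 : ∀ i : ι, (φ.φ ((J.conjTranspose * H * J) i i)).re =
          (φ.φ (H (Sum.inl i) (Sum.inl i))).re := fun i => by
        rw [hJ, trm_corner]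
      rw [Finset.sum_congr rfl fun i _ => e4 i]
      rw [Fintype.sum_sum_type] at e1
      have e5 : 0 ≤ ∑ i : κ, (φ.φ (H (Sum.inr i) (Sum.inr i))).re :=
        Finset.sum_nonneg fun i _ => e3 _
      linarith


/-! Adapted from `Helper86/SR/MinM.lean`. -/

/-- **SR-MinM.** -/
theorem minMLP (hC : MinCLP.{u}) (hS : MatASRP.{u}) (hT : MatTP.{u}) : MinMLP.{u} := by
  intro M _ _ _ hM ι κ _ _ _ _ a b m ha hb hm ε hε
  cases isEmpty_or_nonempty (ι ⊕ κ) with
  | inl h =>
    refine ⟨0, 1, one_pos, fun φ σ hσ => ?_⟩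
    have h1 := (hm φ σ hσ).1
    have h2 := (qBasicP M σ ι a ha).2.2.1
    have h3 : IsEmpty ι := (isEmpty_sum.1 h).1
    rw [Fintype.card_eq_zero, Nat.cast_zero] at h2
    have h4 := (qBasicP M σ ι (cut ((b * (0 : CStarMatrix κ ι M) * a).conjTranspose *
      (b * (0 : CStarMatrix κ ι M) * a)) 1) (cut_nonneg _ _)).2.1
    linarith
  | inr h =>
    have hN : (0 : ℝ) < Fintype.card (ι ⊕ κ) := by exact_mod_cast Fintype.card_pos
    obtain ⟨hT1, hT2⟩ := hT M (ι ⊕ κ)
    obtain ⟨X, s, hs, hX⟩ := hC (CStarMatrix (ι ⊕ κ) (ι ⊕ κ) M) (hS M hM (ι ⊕ κ))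
      (dsum a (0 : CStarMatrix κ κ M)) (dsum (0 : CStarMatrix ι ι M) b)
      (m / Fintype.card (ι ⊕ κ)) (dsum_nonneg ha le_rfl) (dsum_nonneg le_rfl hb)
      (by
        intro ψ' σ' h'
        obtain ⟨ψ, σ, h1, -, h2⟩ := hT1 ψ' σ' h'
        obtain ⟨h3, h4⟩ := hm ψ σ h1
        rw [h2 _ (dsum_nonneg ha le_rfl), h2 _ (dsum_nonneg le_rfl hb)]
        have e1 := (qDsumP qBasicP M σ ι κ a 0 ha le_rfl).2
        have e2 := (qDsumP qBasicP M σ ι κ 0 b le_rfl hb).2
        rw [dim_zero] at e1 e2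
        rw [e1, e2, add_zero, zero_add]
        exact ⟨by gcongr, by gcongr⟩)
      (ε / Fintype.card (ι ⊕ κ)) (by positivity)
    refine ⟨blk X, s, hs, fun φ σ hσ => ?_⟩
    obtain ⟨ψ', σ', h1, -, h2⟩ := hT2 φ σ hσ
    have h3 := hX ψ' σ' h1
    have hc : 0 ≤ (b * blk X * a).conjTranspose * (b * blk X * a) := cm_conj_mul_nonneg _
    rw [sq_prod, cut_dsum_zero hc hs.le, h2 _ (dsum_nonneg (cut_nonneg _ _) le_rfl),
      (qDsumP qBasicP M σ ι κ _ 0 (cut_nonneg _ _) le_rfl).2, dim_zero, add_zero, ← sub_div] at h3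
    exact (div_le_div_iff_of_pos_right hN).1 h3


/-! Adapted from `Helper48/SR/NearC.lean`. -/

theorem nearCL (hU : UBdP.{u}) (hC : CoverP.{u}) (hM : MinMLP.{u}) (hOne : QOneP.{u})
    (hSw : CuSwapP.{u}) (hLe : CuLeAddP.{u}) (hMo : QMonoP.{u}) : NearCLP.{u} := by
  intro B _ _ _ hSR hNF k ε hε
  let S : Type u := {p : CStarMatrix (Unit ⊕ Unit) (Unit ⊕ Unit) B × B // 0 ≤ p.1 ∧
    (∀ σ : QTrace B, 1 / 2 ^ k ≤ σ.dim p.1) ∧
    ∀ (ψ : TState B) (σ : QTrace B), IsQ ψ σ → 0 < (ψ.φ p.2).re → σ.dim p.1 ≤ 1 / 2 ^ k + ε}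
  obtain ⟨T, hT⟩ := hC B S (fun s => s.1.2) (by
    intro φ
    obtain ⟨y, f, hy, h1, h2, h3⟩ := hU B hNF φ k ε hε
    exact ⟨⟨(y, f), hy, h1, h3⟩, h2⟩)
  have key : ∀ (e : ℝ), 0 < e → ∀ l : List S, ∃ (z : B) (s : ℝ), 0 ≤ z ∧ 0 < s ∧
      (∀ (φ : TState B) (σ : QTrace B), IsQ φ σ →
        1 / 2 ^ k - l.length * e ≤ σ.dim (one1 (cut z s))) ∧
      ∀ p ∈ l, ∀ σ : QTrace B, σ.dim (one1 z) ≤ σ.dim p.1.1 := by
    intro e he l
    induction l with
    | nil =>
      refine ⟨1, 1 / 2, zero_le_one, by norm_num, ?_, by simp⟩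
      intro φ σ _
      have h1 : (1 : B) ≤ (2 : ℝ) • cut (1 : B) (1 / 2) := by
        have h2 := le_cut_add (IsSelfAdjoint.one B) (1 / 2)
        have h3 : (1 / 2 : ℝ) • (1 : B) ≤ cut (1 : B) (1 / 2) := by
          have h4 : (1 : B) - (1 / 2 : ℝ) • (1 : B) ≤ cut (1 : B) (1 / 2) := by
            rw [sub_le_iff_le_add]; exact h2
          have h5 : (1 : B) - (1 / 2 : ℝ) • (1 : B) = (1 / 2 : ℝ) • (1 : B) := by
            have : (1 : B) = (1 : ℝ) • (1 : B) := (one_smul ℝ _).symm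
            conv_lhs => rw [this]
            rw [smul_smul, ← sub_smul]
            norm_num
          rwa [h5] at h4
        have h6 := smul_le_smul_of_nonneg_left h3 (by norm_num : (0 : ℝ) ≤ 2)
        rw [smul_smul] at h6
        norm_num at h6
        simpa using h6
      have h7 : (1 : CStarMatrix Unit Unit B) ≤ (2 : ℝ) • one1 (cut (1 : B) (1 / 2)) := by
        have h8 : one1H (1 : B) ≤ one1H ((2 : ℝ) • cut (1 : B) (1 / 2)) := by
          have h9 := map_nonneg (one1H (A := B)) (sub_nonneg.2 h1)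
          rw [map_sub] at h9
          exact sub_nonneg.1 h9
        rw [map_one] at h8
        exact h8
      have h10 : (σ.dim (1 : CStarMatrix Unit Unit B)) ≤ σ.dim (one1 (cut (1 : B) (1 / 2))) :=
        nearC_dim_le hLe hMo σ 2 (by norm_num) _ _ zero_le_one
          (one1_nonneg (cut_nonneg _ _)) h7
      rw [(hOne B σ Unit).2] at h10
      have h11 : (1 : ℝ) / 2 ^ k ≤ 1 := by
        rw [div_le_one (by positivity)]
        exact one_le_pow₀ (by norm_num)
      simp only [List.length_nil, Nat.cast_zero, zero_mul, sub_zero]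
      refine h11.trans ?_
      simpa using h10
    | cons p l ih =>
      obtain ⟨z, s, hz, hs, hl, hup⟩ := ih
      have hcut : ∀ σ : QTrace B, σ.dim (one1 (cut z s)) ≤ σ.dim (one1 z) := by
        intro σ
        refine nearC_dim_le hLe hMo σ 1 zero_le_one _ _ (one1_nonneg (cut_nonneg _ _))
          (one1_nonneg hz) ?_
        rw [one_smul]
        have h9 := map_nonneg (one1H (A := B)) (sub_nonneg.2 (cut_le hz hs.le))
        rw [map_sub] at h9
        exact sub_nonneg.1 h9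
      obtain ⟨X, s', hs', hX⟩ := hM B hSR Unit (Unit ⊕ Unit) (one1 z) p.1.1
        (1 / 2 ^ k - l.length * e) (one1_nonneg hz) p.2.1 (by
          intro φ σ hq
          refine ⟨(hl φ σ hq).trans (hcut σ), ?_⟩
          have := p.2.2.1 σ
          have h0 : 0 ≤ (l.length : ℝ) * e := by positivity
          linarith) e he
      obtain ⟨w, hw⟩ : ∃ w : CStarMatrix (Unit ⊕ Unit) Unit B, w = p.1.1 * X * one1 z := ⟨_, rfl⟩
      have hz' : one1 ((w.conjTranspose * w) () ()) = w.conjTranspose * w := by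
        ext i j
        rfl
      have hz'0 : 0 ≤ (w.conjTranspose * w) () () := by
        rw [CStarMatrix.mul_apply]
        refine Finset.sum_nonneg fun i _ => ?_
        exact star_mul_self_nonneg _
      have hcc : w.conjTranspose * w =
          one1 z * ((p.1.1 * X).conjTranspose * (p.1.1 * X)) * one1 z := by
        rw [hw, cm_conj_mul, cm_star_eq (one1 z), (one1_nonneg hz).isSelfAdjoint.star_eq]
        simp only [cm_assoc]
      have hdd : w * w.conjTranspose =
          p.1.1 * ((X * one1 z) * (X * one1 z).conjTranspose) * p.1.1 := by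
        have h1 : w = p.1.1 * (X * one1 z) := by rw [hw, cm_assoc]
        rw [h1, cm_conj_mul p.1.1 (X * one1 z), cm_star_eq p.1.1, p.2.1.isSelfAdjoint.star_eq]
        simp only [cm_assoc]
      have ha : ∀ σ : QTrace B, σ.dim (w.conjTranspose * w) ≤ σ.dim (one1 z) := by
        intro σ
        rw [hcc]
        exact nearC_dim_sand hLe hMo σ _ _ (one1_nonneg hz) (cm_conj_mul_nonneg _)
      have hb : ∀ σ : QTrace B, σ.dim (w.conjTranspose * w) ≤ σ.dim p.1.1 := by
        intro σ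
        refine (nearC_dim_swap hSw hMo σ w).trans ?_
        rw [hdd]
        exact nearC_dim_sand hLe hMo σ _ _ p.2.1 (cm_mul_conj_nonneg _)
      refine ⟨(w.conjTranspose * w) () (), s', hz'0, hs', ?_, ?_⟩
      · intro φ σ hq
        rw [← cut_one1 hz'0.isSelfAdjoint, hz', hw]
        have := hX φ σ hq
        simp only [List.length_cons, Nat.cast_add, Nat.cast_one]
        linarith
      · intro q hqm σ
        rw [hz']
        rcases List.mem_cons.1 hqm with rfl | hq
        · exact hb σ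
        · exact (ha σ).trans (hup q hq σ)
  obtain ⟨z, s, hz, hs, hl, hup⟩ := key (ε / (T.card + 1)) (by positivity) T.toList
  refine ⟨z, s, hz, hs, fun φ σ hq => ⟨?_, ?_⟩⟩
  · have h1 := hl φ σ hq
    have h2 : (T.toList.length : ℝ) * (ε / (T.card + 1)) ≤ ε := by
      rw [Finset.length_toList, mul_div_assoc', div_le_iff₀ (by positivity)]
      nlinarith [hε]
    linarith
  · obtain ⟨q, hqT, hq0⟩ := hT φ
    exact (hup q (Finset.mem_toList.2 hqT) σ).trans (q.2.2.2 φ σ hq hq0)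


/-! Adapted from `Helper81/SR/TDivSr.lean`. -/

theorem tDivLP (hN : NearCLP.{u}) (hT : TTrMLP.{u}) (hLA : CuLeAddP.{u}) (hSw : CuSwapP.{u})
    (hAd : CuAddP.{u}) (hQM : QMonoP.{u}) (hQD : QDsumP.{u}) (hDg : QDgP.{u})
    (hQB : QBasicP.{u}) (hQ1 : QOneP.{u}) (hQC : QCutP.{u}) : TDivLP.{u} := by
  intro B _ _ _ C hSR hNF hC hD N δ hδ
  obtain ⟨δ₀, hδ₀, hδ1, hδδ⟩ : ∃ δ₀ : ℝ, 0 < δ₀ ∧ δ₀ ≤ 1 ∧ δ₀ ≤ δ :=
    ⟨min δ 1, lt_min hδ one_pos, min_le_right _ _, min_le_left _ _⟩
  obtain ⟨n, hn⟩ := exists_nat_ge (16 / δ₀)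
  obtain ⟨k, hk⟩ : ∃ k, k = N + n + 1 := ⟨_, rfl⟩
  have hk2 : k < 2 ^ k := Nat.lt_two_pow_self
  obtain ⟨L, hL⟩ : ∃ L, L + 1 = 2 ^ k := ⟨2 ^ k - 1, Nat.sub_add_cancel (by omega)⟩
  have hLN : N + n + 1 ≤ L := by omega
  have hP : (2 : ℝ) ^ k = (L : ℝ) + 1 := by
    have : ((2 ^ k : ℕ) : ℝ) = ((L + 1 : ℕ) : ℝ) := by rw [hL]
    push_cast at this
    exact this
  have hL1 : (1 : ℝ) ≤ (L : ℝ) := by
    have : 1 ≤ L := by omega
    exact_mod_cast this
  have hLn : (n : ℝ) ≤ (L : ℝ) := by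
    have : n ≤ L := by omega
    exact_mod_cast this
  have h16 : 16 ≤ δ₀ * L := by
    have h1 : 16 / δ₀ ≤ L := hn.trans hLn
    rw [div_le_iff₀ hδ₀] at h1
    linarith
  set P : ℝ := (L : ℝ) + 1 with hPdef
  have hP2 : 2 ≤ P := by rw [hPdef]; linarith
  have hPpos : 0 < P := by linarith
  set eps : ℝ := 1 / (2 * P ^ 2) with heps
  have hepsp : 0 < eps := by positivity
  obtain ⟨f, s, hf, hs, hfs⟩ := hN B hSR hNF k eps hepsp
  have hfsa := hf.isSelfAdjoint
  have hcond1 : (L : ℝ) * (1 / P + eps) < 1 := by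
    have e1 : (L : ℝ) = P - 1 := by rw [hPdef]; ring
    rw [e1, heps]
    have e2 : (P - 1) * (1 / P + 1 / (2 * P ^ 2)) = 1 - (P + 1) / (2 * P ^ 2) := by
      field_simp
      ring
    rw [e2]
    have : 0 < (P + 1) / (2 * P ^ 2) := by positivity
    linarith
  have hcond2 : 1 < ((L : ℝ) + 2) * (1 / P - eps) := by
    have e1 : (L : ℝ) + 2 = P + 1 := by rw [hPdef]; ring
    rw [e1, heps]
    have e2 : (P + 1) * (1 / P - 1 / (2 * P ^ 2)) = 1 + (P - 1) / (2 * P ^ 2) := by
      field_simp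
      ring
    rw [e2]
    have : 0 < (P - 1) / (2 * P ^ 2) := by
      have : 0 < P - 1 := by linarith
      positivity
    linarith
  set f' : B := cut f (s / 2) with hf'
  have hf'0 : 0 ≤ f' := cut_nonneg _ _
  -- the first application
  set δ1 : ℝ := s / 4 with hδ1def
  have hδ1p : 0 < δ1 := by positivity
  set ε1 : ℝ := δ₀ * δ1 / (2 * (C * L + 1)) with hε1
  have hε1p : 0 < ε1 := by positivity
  have key1 : ∀ ω : QTrace B, (L : ℝ) * ω.dim (one1 f') < 1 + δ₀ := by
    intro ω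
    obtain ⟨hdg0, -⟩ := hDg B ω (Fin L) f hf
    obtain ⟨y, h, hh, hle, hτ⟩ := hT B hSR (Fin L) Unit (dg (Fin L) f)
      (1 : CStarMatrix Unit Unit B) hdg0 zero_le_one (by
        intro φ σ hQ
        rw [(hDg B σ (Fin L) f hf).2, (hQ1 B σ Unit).2, Fintype.card_fin, Fintype.card_unit,
          Nat.cast_one]
        refine lt_of_le_of_lt ?_ hcond1
        have := (hfs φ σ hQ).2
        rw [hP] at this
        exact mul_le_mul_of_nonneg_left this (by positivity)) δ1 ε1 hδ1p hε1p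
    rw [cm_mul_one] at hle
    have hyy : 0 ≤ y.conjTranspose * y := cm_conj_mul_nonneg y
    have c1 : dg (Fin L) f ≤ (y.conjTranspose * y + cut h δ1) +
        (s / 2) • (1 : CStarMatrix (Fin L) (Fin L) B) := by
      have h1 := le_cut_add hh.isSelfAdjoint δ1
      calc dg (Fin L) f ≤ y.conjTranspose * y + h + δ1 • 1 := hle
        _ ≤ y.conjTranspose * y + (cut h δ1 + δ1 • 1) + δ1 • 1 :=
            add_le_add (add_le_add le_rfl h1) le_rfl
        _ = (y.conjTranspose * y + cut h δ1) + (δ1 • 1 + δ1 • 1) := by abel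
        _ = _ := by
            rw [← add_smul]
            congr 2
            rw [hδ1def]; ring
    have c2 : Cu (cut (dg (Fin L) f) (s / 2)) (y.conjTranspose * y + cut h δ1) :=
      hLA B _ _ _ (s / 2) (by positivity) hdg0 (add_nonneg hyy (cut_nonneg _ _)) c1
    have c3 : ω.dim (cut (dg (Fin L) f) (s / 2)) ≤
        ω.dim (y.conjTranspose * y) + ω.dim (cut h δ1) :=
      (hQM B ω _ _ _ _ (cut_nonneg _ _) (add_nonneg hyy (cut_nonneg _ _)) c2).trans
        (domM_add hAd hQM hQD ω _ _ _ hyy (cut_nonneg _ _))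
    have c4 : Cu (y.conjTranspose * y) (y * y.conjTranspose) := by
      have := hSw B (Fin L) Unit y.conjTranspose 0 le_rfl
      rwa [cm_conj_conj, cut_zero hyy, cut_zero (cm_mul_conj_nonneg y)] at this
    have c5 : ω.dim (y.conjTranspose * y) ≤ 1 := by
      refine (hQM B ω _ _ _ _ hyy (cm_mul_conj_nonneg y) c4).trans ?_
      have := (hQB B ω Unit (y * y.conjTranspose) (cm_mul_conj_nonneg y)).2.2.1
      simpa using this
    have c6 : ω.dim (cut h δ1) ≤ C * L * (ε1 / δ1) := by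
      have := dom81 hQC hC hD ω h hh hδ1p hτ
      rwa [Fintype.card_fin] at this
    have c7 : C * L * (ε1 / δ1) ≤ δ₀ / 2 := by
      have e1 : C * L * (ε1 / δ1) = (C * L / (C * L + 1)) * (δ₀ / 2) := by
        rw [hε1]; field_simp
      rw [e1]
      have e2 : C * L / (C * L + 1) ≤ 1 := by
        rw [div_le_one (by positivity)]
        linarith
      calc (C * L / (C * L + 1)) * (δ₀ / 2) ≤ 1 * (δ₀ / 2) :=
            mul_le_mul_of_nonneg_right e2 (by positivity)
        _ = δ₀ / 2 := one_mul _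
    have c8 : (L : ℝ) * ω.dim (one1 f') = ω.dim (cut (dg (Fin L) f) (s / 2)) := by
      rw [cut_dg hfsa, (hDg B ω (Fin L) _ (cut_nonneg _ _)).2, Fintype.card_fin]
    rw [c8]
    linarith
  -- the second application
  set ε2 : ℝ := (δ₀ / 2) ^ 2 / (2 * (C + 1)) with hε2
  have hε2p : 0 < ε2 := by positivity
  obtain ⟨y, h, hh, hle, hτ⟩ := hT B hSR Unit (Fin (L + 2)) (1 : CStarMatrix Unit Unit B)
    (dg (Fin (L + 2)) f') zero_le_one (dg_nonneg hf'0) (by
      intro φ σ hQ
      rw [(hDg B σ (Fin (L + 2)) f' hf'0).2, (hQ1 B σ Unit).2, Fintype.card_fin,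
        Fintype.card_unit, Nat.cast_one]
      refine lt_of_lt_of_le hcond2 ?_
      have h1 := (hfs φ σ hQ).1
      rw [hP] at h1
      have h2 : σ.dim (one1 (cut f s)) ≤ σ.dim (one1 f') := by
        have e1 : cut f s = cut f' (s / 2) := by
          rw [hf', cut_cut hfsa (by positivity), add_halves]
        rw [e1, ← cut_one1 hf'0.isSelfAdjoint]
        exact cut_dim_le81 hLA hQM σ _ (one1_nonneg hf'0) (by positivity)
      have h3 : ((L + 2 : ℕ) : ℝ) = (L : ℝ) + 2 := by push_cast; ring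
      rw [h3]
      exact mul_le_mul_of_nonneg_left (h1.trans h2) (by positivity)) (δ₀ / 2) ε2
      (by positivity) hε2p
  have hent := ent81_le hle
  have e0 : (y.conjTranspose * dg (Fin (L + 2)) f' * y + h +
      (δ₀ / 2) • (1 : CStarMatrix Unit Unit B)) () () =
      ∑ i, star (y i ()) * f' * y i () + h () () + (δ₀ / 2) • (1 : B) := by
    rw [← conj_dg81]
    rfl
  rw [e0] at hent
  have hh' : 0 ≤ h () () := map_nonneg (ent81 B) hh
  have h1' : (1 : CStarMatrix Unit Unit B) () () = (1 : B) := rfl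
  rw [h1', Fin.sum_univ_castSucc, Fin.sum_univ_castSucc] at hent
  set g1 : B := star (y (Fin.last L).castSucc ()) * f' * y (Fin.last L).castSucc () with hg1
  set g2 : B := star (y (Fin.last (L + 1)) ()) * f' * y (Fin.last (L + 1)) () with hg2
  have hg1n : 0 ≤ g1 := star_left_conjugate_nonneg hf'0 _
  have hg2n : 0 ≤ g2 := star_left_conjugate_nonneg hf'0 _
  refine ⟨L, by omega, by omega, f', hf'0,
    ⟨fun i => star (y i.castSucc.castSucc ()), g1 + g2 + cut (h () ()) (δ₀ / 2),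
      add_nonneg (add_nonneg hg1n hg2n) (cut_nonneg _ _), ?_, ?_⟩, ?_⟩
  · have a1 := le_cut_add hh'.isSelfAdjoint (δ₀ / 2)
    simp only [star_star]
    calc (1 : B) ≤ ∑ i : Fin L, star (y i.castSucc.castSucc ()) * f' * y i.castSucc.castSucc ()
            + g1 + g2 + h () () + (δ₀ / 2) • (1 : B) := hent
      _ ≤ ∑ i : Fin L, star (y i.castSucc.castSucc ()) * f' * y i.castSucc.castSucc ()
            + g1 + g2 + (cut (h () ()) (δ₀ / 2) + (δ₀ / 2) • (1 : B)) + (δ₀ / 2) • (1 : B) :=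
          add_le_add (add_le_add le_rfl a1) le_rfl
      _ = ∑ i : Fin L, star (y i.castSucc.castSucc ()) * f' * y i.castSucc.castSucc ()
            + (g1 + g2 + cut (h () ()) (δ₀ / 2)) + ((δ₀ / 2) • (1 : B) + (δ₀ / 2) • (1 : B)) := by
          abel
      _ = ∑ i : Fin L, star (y i.castSucc.castSucc ()) * f' * y i.castSucc.castSucc ()
            + (g1 + g2 + cut (h () ()) (δ₀ / 2)) + δ₀ • (1 : B) := by
          rw [← add_smul, add_halves]
      _ ≤ _ := add_le_add le_rfl (smul_le_smul_of_nonneg_right hδδ zero_le_one)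
  · intro ω
    have b1 : one1 (g1 + g2 + cut (h () ()) (δ₀ / 2)) =
        one1 g1 + one1 g2 + one1 (cut (h () ()) (δ₀ / 2)) := rfl
    have b2 : ω.dim (one1 g1) ≤ ω.dim (one1 f') := dim_conj81 hQM ω f' _ hf'0
    have b3 : ω.dim (one1 g2) ≤ ω.dim (one1 f') := dim_conj81 hQM ω f' _ hf'0
    have b4 : ω.dim (one1 (cut (h () ()) (δ₀ / 2))) ≤ δ₀ / 4 := by
      rw [← cut_one1 hh'.isSelfAdjoint, one1_ent81]
      refine (dom81 hQC hC hD ω h hh (by positivity) hτ).trans ?_
      rw [Fintype.card_unit]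
      have e1 : C * ((1 : ℕ) : ℝ) * (ε2 / (δ₀ / 2)) = (C / (C + 1)) * (δ₀ / 4) := by
        rw [hε2]; push_cast; field_simp; ring
      rw [e1]
      have e2 : C / (C + 1) ≤ 1 := by
        rw [div_le_one (by positivity)]
        linarith
      calc (C / (C + 1)) * (δ₀ / 4) ≤ 1 * (δ₀ / 4) :=
            mul_le_mul_of_nonneg_right e2 (by positivity)
        _ = δ₀ / 4 := one_mul _
    have b5 : ω.dim (one1 f') ≤ δ₀ / 8 := by
      have h1 := key1 ω
      have h2 : (L : ℝ) * ω.dim (one1 f') < 2 := by linarith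
      have h3 : (L : ℝ) * ω.dim (one1 f') ≤ (L : ℝ) * (δ₀ / 8) := by nlinarith
      exact le_of_mul_le_mul_left h3 (by linarith)
    rw [b1]
    have b6 := domM_add hAd hQM hQD ω Unit (one1 g1 + one1 g2)
      (one1 (cut (h () ()) (δ₀ / 2))) (add_nonneg (one1_nonneg hg1n) (one1_nonneg hg2n))
      (one1_nonneg (cut_nonneg _ _))
    have b7 := domM_add hAd hQM hQD ω Unit (one1 g1) (one1 g2) (one1_nonneg hg1n)
      (one1_nonneg hg2n)
    linarith
  · intro ω
    have := key1 ω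
    linarith


end RC
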