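import Pool.Agent.Helper29.AR.Props
import Pool.Agent.Helper29.SR.Fin

/-!
# MP_b55b7c_an: approximate stable rank one, the final assembly
-/

open scoped ENNReal NNReal InnerProductSpace ComplexOrder
open Filter Topology

attribute [-instance] CStarMatrix.instAlgebra CStarMatrix.instModule CStarMatrix.instSMul
  CStarMatrix.instMulAction CStarMatrix.instDistribMulAction

noncomputable section
namespace RC
universe u

/-- Stable rank one is the case `L = 0`. -/
theorem asr_of_sr (hD : DimP.{u}) {M : Type u} [CStarAlgebra M] [PartialOrder M]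
    [StarOrderedRing M] (h : SR1 M) : ASR M := by
  intro x η θ hη hθ
  obtain ⟨z, hz, hxz⟩ := h x η hη
  obtain ⟨v, rfl⟩ := hz
  refine ⟨v, 0, hxz.le, le_refl 0, ⟨(v⁻¹ : Mˣ), 0, by simp⟩, fun φ σ _ => ?_⟩
  rw [(hD M σ).1]
  exact hθ.le

/-- The case of packet `TCompSr`. -/
theorem tCompLP (hT : TTrMLP.{u}) (hCut : QCutP.{u}) : TCompLP.{u} := by
  intro M _ _ _ C hSR hC hD ι κ _ _ _ _ a b ha hb h δ hδ
  have hK : 0 ≤ C * Fintype.card ι := by positivity
  have hδ2 : 0 < δ / 2 := by positivity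
  have hε : 0 < δ / 2 * (δ / (2 * (C * Fintype.card ι + 1))) := by positivity
  obtain ⟨y, g, hg, hle, hτ⟩ := hT M hSR ι κ a b ha hb (fun _ σ _ => h σ) (δ / 2) _ hδ2 hε
  refine ⟨y, cut g (δ / 2), cut_nonneg _ _, ?_, ?_⟩
  · have h1 : g ≤ cut g (δ / 2) + (δ / 2) • (1 : CStarMatrix ι ι M) :=
      le_cut_add (IsSelfAdjoint.of_nonneg hg) _
    calc a ≤ y.conjTranspose * b * y + g + (δ / 2) • (1 : CStarMatrix ι ι M) := hle
      _ ≤ y.conjTranspose * b * y + (cut g (δ / 2) + (δ / 2) • (1 : CStarMatrix ι ι M)) +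
          (δ / 2) • (1 : CStarMatrix ι ι M) := by gcongr
      _ = y.conjTranspose * b * y + cut g (δ / 2) + δ • (1 : CStarMatrix ι ι M) := by
          rw [add_assoc, add_assoc, add_assoc, ← add_smul, add_halves]
  · intro σ
    obtain ⟨φ, σ₀, hQ, hdom⟩ := hD σ
    have h1 := hdom ι (cut g (δ / 2)) (cut_nonneg _ _)
    have h2 : δ / 2 * σ₀.dim (cut g (δ / 2)) ≤ σ₀.τ ι g := hCut M σ₀ ι g (δ / 2) hg hδ2
    have h3 := h2.trans (hτ φ σ₀ hQ)
    have h4 : σ₀.dim (cut g (δ / 2)) ≤ δ / (2 * (C * Fintype.card ι + 1)) :=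
      le_of_mul_le_mul_left h3 hδ2
    calc σ.dim (cut g (δ / 2)) ≤ C * Fintype.card ι * σ₀.dim (cut g (δ / 2)) := h1
      _ ≤ C * Fintype.card ι * (δ / (2 * (C * Fintype.card ι + 1))) :=
          mul_le_mul_of_nonneg_left h4 hK
      _ < δ := by
          rw [← mul_div_assoc, div_lt_iff₀ (by positivity)]
          nlinarith

/-- Both inequalities. -/
theorem of_ar (hL : LimEqP.{u}) (hC : CritP.{u}) (hR : RedCompP.{u})
    (hTC : TCompLP.{u}) (hTD : TDivLP.{u}) (hTP : TDivPullP.{u}) (hDF : DomTFixP.{u})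
    (hMat : MatASRP.{u}) (hNF : NoFinP.{u}) (hDI : DomInvP.{u})
    (hDM : DomInvMatP.{u}) (hX : CrossGP.{u}) (hMS : MatSimpP.{u}) (hSi : SimpP.{u})
    (hEx : CrossExP.{u}) (hAR : AsrRP.{u}) (hAB : AsrBP.{u})
    (A : Type u) [CStarAlgebra A] [PartialOrder A] [StarOrderedRing A]
    (hs : IsSimpleC A) (hinf : ¬ FiniteDimensional ℂ A) (hsr : ASR A) (C : ℝ)
    (hCd : ∀ σ : QTrace A, ∃ φ : TState A, ∀ x : A, 0 ≤ x →
      σ.τ Unit (one1 x) ≤ C * (φ.φ x).re)
    (G : Type) [Group G] [Fintype G] (α : G → A ≃⋆ₐ[ℂ] A) (hα : IsAct α) :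
    (∀ (B : Type u) [CStarAlgebra B] [PartialOrder B] [StarOrderedRing B] (j : B →⋆ₐ[ℂ] A),
      IsFix α j → rc A ≤ rc B) ∧
    (∀ (R : Type u) [CStarAlgebra R] [PartialOrder R] [StarOrderedRing R] (k : A →⋆ₐ[ℂ] R)
      (w : G → R), IsCross α k w → rc A / Fintype.card G ≤ rc R) := by
  classical
  obtain ⟨C', hC', hD⟩ := domT_of hDI C hCd
  have hsA := hSi A hs
  refine ⟨?_, ?_⟩
  · intro B _ _ _ j hj
    obtain ⟨C₂, hC₂, hD₂⟩ := hDF A B G α j hα hj hsA C' hC' hD
    obtain ⟨R, _, _, _, k, w, hw⟩ := hEx A G α hα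
    have hASR : ASR R := hAR A R G α k w hα hw hsA (noFin_self hNF hsA hinf) hsr
    have hB : ASR B := hAB A B R G α j k w hα hj hw hsA C' hC' hD hASR
    exact fixed_le hL hC A B G α j hα hj hsA (hTC A C' hsr hC' hD)
      (hTD B C₂ hB (noFin_fix hNF hα hj hsA hinf) hC₂ hD₂)
  · intro R _ _ _ k w hk
    obtain ⟨β, jR, hβ, hjR, htr, hdg⟩ := hX A G α R k w hα hk
    have hCm : 0 ≤ C' * Fintype.card G := by positivity
    have hk' : Function.Injective k := by
      intro a b hab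
      obtain ⟨f, -, hu⟩ := hk.2.2.2 (k a)
      have h1 : ∀ c : A, k c = k a → (fun g : G => if g = 1 then c else 0) = f := by
        intro c hc
        refine hu _ ?_
        rw [← hc]
        simp only
        rw [Finset.sum_eq_single 1]
        · have hone : w 1 = 1 := by
            have h2 := hk.2.1 1 1
            rw [mul_one] at h2
            have h3 := (Unitary.mem_iff.mp (hk.1 1)).1
            calc w 1 = star (w 1) * w 1 * w 1 := by rw [h3, one_mul]
              _ = star (w 1) * (w 1 * w 1) := by rw [mul_assoc]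
              _ = star (w 1) * w 1 := by rw [← h2]
              _ = 1 := h3
          rw [if_pos rfl, hone, mul_one]
        · intro g _ hg
          rw [if_neg hg, map_zero, zero_mul]
        · intro h
          exact absurd (Finset.mem_univ _) h
      have h2 := (h1 a rfl).trans (h1 b hab.symm).symm
      have h3 := congrFun h2 1
      simpa using h3
    have hTDA : TDiv A := hTD A C' hsr (noFin_self hNF hsA hinf) hC' hD
    exact cross_le hL hC hR A R G β jR hβ hjR ((hMS A G).1 hsA)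
      (hTC _ _ (hMat A hsr G) hCm (domT_mat hDM C' hC' hD G)) (hTP A R k hk' hTDA)

end RC
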