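import Pool.Agent.Helper29.UG.All
import Pool.Agent.Helper29.AR.Copies
import Pool.Agent.Helper29.AR.Fin
import Pool.Agent.Helper82.SR.TD3B
import Pool.Agent.Helper33.SR.UBd
import Pool.Agent.Helper39.SR.Rk
import Pool.Agent.Helper73.SR.Cover
import Pool.Agent.Helper35.SR.RankT
import Pool.Agent.Helper35.SR.Sel
import Pool.Agent.Helper87.SR.LocA
import Pool.Agent.Helper79.SR.LocB
import Pool.Agent.Helper15.SR.LocMax
import Pool.Agent.Helper5.SR.MatT
import Pool.Agent.Helper8.SR.TDivPull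
import Pool.Agent.Helper67.SR.DomTFix
import Pool.Agent.Helper87.AR.Lc
import Pool.Agent.Helper24.AR.Dim
import Pool.Agent.Helper94.AR.Coker
import Pool.Agent.Helper35.AR.InvExtL
import Pool.Agent.Helper42.AR.H1L
import Pool.Agent.Helper90.AR.CoreStepL
import Pool.Agent.Helper12.AR.CoreL
import Pool.Agent.Helper51.AR.MatASR
import Pool.Agent.Helper39.AR.PassL
import Pool.Agent.Helper89.AR.DisjL
import Pool.Agent.Helper9.AR.XMaxL
import Pool.Agent.Helper35.AR.MinCL
import Pool.Agent.Helper83.AR.Half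
import Pool.Agent.Helper56.AR.SmallE
import Pool.Agent.Helper62.AR.Rect
import Pool.Agent.Helper19.AR.SubE
import Pool.Agent.Helper7.AR.TSC
import Pool.Agent.Helper48.AR.AsrR
import Pool.Agent.Helper15.AR.CrossEx
import Pool.Agent.Helper2.AR.AsrB

/-!
# MP_b55b7c_an: approximate stable rank one, all pieces together
-/

open scoped ENNReal NNReal InnerProductSpace ComplexOrder
open Filter Topology

attribute [-instance] CStarMatrix.instAlgebra CStarMatrix.instModule CStarMatrix.instSMul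
  CStarMatrix.instMulAction CStarMatrix.instDistribMulAction

noncomputable section
namespace RC
universe u

theorem piecesA : PiecesP.{u} := pieces_of maxP (twoP ncP polarP)
theorem abRepA : AbRepP.{u} := abRep_h34 absysG charP_h60
theorem tD3BA : TD3BP.{u} := tD3B gnsP repFVP abRepA piecesA kap_all twoNormP
theorem uBdA : UBdP.{u} :=
  uBd33P tD3BA rkP n2P lowB_all qMono_all cuLeAdd_all qDsum_all qCutP
theorem rankTA : RankTP.{u} := rankTP repFVP qOfTP qBasicP
theorem locMaxA : LocMaxP.{u} := locMaxP (locAP rankTA) Helper79LocB.locB_all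
theorem selA : SelP.{u} := selP locMaxA cover73 rkP qOfTP qBasicP
theorem dimA : DimP.{u} :=
  dimP_of cuAdd_all cuLeAdd_all cuSwap_all qMono_all qDsum_all qBasicP
theorem cokerA : CokerP.{u} := cokerP qMono_all
theorem h1LA : H1LP.{u} := h42_h1lP lcP dimA
theorem coreLA : CoreLP.{u} := coreLP (coreStepL dimA cokerA invExtLP h1LA)
theorem matASRA : MatASRP.{u} := matASR_51 matT_h5 lcP dimA qMono_all
theorem passLA : PassLP.{u} :=
  passLP cuTransP cuLeAdd_all cuSwap_all cuAdd_all qMono_all qDsum_all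
theorem disjLA : DisjLP.{u} :=
  disjLP cuLeAdd_all cuSwap_all cuAdd_all qMono_all qDsum_all
theorem tTrLA : TTrLP.{u} := tTrLP (xMaxLP selA coreLA disjLA rkP)
theorem tTrMLA : TTrMLP.{u} := tTrMLP qMono_all qBasicP qDsum_all tTrLA matASRA matT_h5
theorem tCompLA : TCompLP.{u} := tCompLP tTrMLA qCutP
theorem minMLA : MinMLP.{u} :=
  minMLP (minCLP locMaxA cover73 coreLA passLA rkP qMono_all cuLeAdd_all) matASRA matT_h5
theorem nearCLA : NearCLP.{u} :=
  nearCL uBdA cover73 minMLA qOneP cuSwap_all cuLeAdd_all qMono_all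
theorem tDivLA : TDivLP.{u} :=
  tDivLP nearCLA tTrMLA cuLeAdd_all cuSwap_all cuAdd_all qMono_all qDsum_all qDg_all qBasicP
    qOneP qCutP
theorem halfA : HalfP.{u} :=
  halfP gnsP repFVP abRepA polarP kap_all twoNormP ncP cuSwap_all qMono_all qDsum_all
theorem smallEA : SmallEP.{u} := smallE halfA qBasicP qPull_all dimA
theorem asrRA : AsrRP.{u} :=
  asrR smallEA subE (tsc7 matASRA h1LA) (rectP mpP qMono_all qDsum_all qBasicP) lcP dimA
    qPull_all cuSwap_all cuLeAdd_all cuTransP cuOfCutP qMono_all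
theorem asrBA : AsrBP.{u} := asrBP dimA

theorem finalA (A : Type u) [CStarAlgebra A] [PartialOrder A] [StarOrderedRing A]
    (hs : IsSimpleC A) (hinf : ¬ FiniteDimensional ℂ A) (hsr : ASR A) (C : ℝ)
    (hCd : ∀ σ : QTrace A, ∃ φ : TState A, ∀ x : A, 0 ≤ x →
      σ.τ Unit (one1 x) ≤ C * (φ.φ x).re)
    (G : Type) [Group G] [Fintype G] (α : G → A ≃⋆ₐ[ℂ] A) (hα : IsAct α) :
    (∀ (B : Type u) [CStarAlgebra B] [PartialOrder B] [StarOrderedRing B] (j : B →⋆ₐ[ℂ] A),
      IsFix α j → rc A ≤ rc B) ∧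
    (∀ (R : Type u) [CStarAlgebra R] [PartialOrder R] [StarOrderedRing R] (k : A →⋆ₐ[ℂ] R)
      (w : G → R), IsCross α k w → rc A / Fintype.card G ≤ rc R) :=
  of_ar (limEqP qBasicP) crit_all redComp_all tCompLA tDivLA (tDivPullP qPull_all)
    (domTFixP sB_all qOfTP mpP) matASRA noFinP domInvP domInvMat_all crossGP matSimpP simpP
    crossExP asrRA asrBA A hs hinf hsr C hCd G α hα

end RC
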