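import Pool.Agent.Helper29.SR.Props

/-!
# MP_b55b7c_an: approximate stable rank one, the statements of the packets
-/

open scoped ENNReal NNReal InnerProductSpace ComplexOrder
open Filter Topology

attribute [-instance] CStarMatrix.instAlgebra CStarMatrix.instModule CStarMatrix.instSMul
  CStarMatrix.instMulAction CStarMatrix.instDistribMulAction

noncomputable section
namespace RC
universe u

section
variable {M : Type u} [CStarAlgebra M] [PartialOrder M] [StarOrderedRing M]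

/-- The left ideal generated by `x` and `L` is everything. -/
def LI (x L : M) : Prop := ∃ a b : M, a * x + b * L = 1

/-- The rank of `L` is at most `θ` at all tracial states. -/
def SmT (θ : ℝ) (L : M) : Prop :=
  ∀ (φ : TState M) (σ : QTrace M), IsQ φ σ → σ.dim (one1 L) ≤ θ

variable (M) in
/-- Approximate stable rank one: every element is a limit of elements `x'` which are left
invertible up to an element `L ≥ 0` of arbitrarily small rank. -/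
def ASR : Prop :=
  ∀ (x : M) (η θ : ℝ), 0 < η → 0 < θ → ∃ x' L : M, ‖x - x'‖ ≤ η ∧ 0 ≤ L ∧ LI x' L ∧ SmT θ L

/-- `w` is bounded below by `√δ` on the part of `v* v` above `ε`, up to `L`. -/
def BelL (ε δ : ℝ) (v w L : M) : Prop :=
  δ • (cut (sq v) ε * cut (sq v) ε) ≤ cut (sq v) ε * (sq w + L) * cut (sq v) ε

end

/-! ## Algebra -/

/-- The calculus of losses. -/
def LcP : Prop := ∀ (M : Type u) [CStarAlgebra M] [PartialOrder M] [StarOrderedRing M]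
  (n : ℕ) (x a : M) (b w : Fin n → M), a * x + ∑ i, b i * w i = 1 →
  0 ≤ ∑ i, sq (w i) ∧ LI x (∑ i, sq (w i))

/-- Rank functions of sums and products. -/
def DimP : Prop := ∀ (M : Type u) [CStarAlgebra M] [PartialOrder M] [StarOrderedRing M]
  (σ : QTrace M), σ.dim (one1 (0 : M)) = 0 ∧
  (∀ (n : ℕ) (l : Fin n → M), (∀ i, 0 ≤ l i) →
    σ.dim (one1 (∑ i, l i)) ≤ ∑ i, σ.dim (one1 (l i))) ∧
  (∀ L p q : M, 0 ≤ L → σ.dim (one1 (sq (p * L * q))) ≤ σ.dim (one1 L)) ∧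
  (∀ (x y : M) (C : ℝ), 0 ≤ x → 0 ≤ y → x ≤ C • y → σ.dim (one1 x) ≤ σ.dim (one1 y))

/-- A left inverse up to `L` gives a right inverse up to `L'`. -/
def CokerP : Prop := ∀ (M : Type u) [CStarAlgebra M] [PartialOrder M] [StarOrderedRing M]
  (y L : M), 0 ≤ L → LI y L → ∃ t b' L' : M, 0 ≤ L' ∧ y * t + L' * b' = 1 ∧
    ∀ (φ : TState M) (σ : QTrace M), IsQ φ σ → σ.dim (one1 L') ≤ σ.dim (one1 L)

def InvExtLP : Prop := ∀ (M : Type u) [CStarAlgebra M] [PartialOrder M] [StarOrderedRing M],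
  ASR M → ∀ (v : M) (ε θ : ℝ), 0 < ε → 0 < θ → ∃ y L : M, 0 ≤ L ∧ LI y L ∧ SmT θ L ∧
    ∀ F : ℝ → ℝ, Continuous F → (∀ t ≤ ε, F t = 0) → y * cfc F (sq v) = v * cfc F (sq v)

def H1LP : Prop := ∀ (M : Type u) [CStarAlgebra M] [PartialOrder M] [StarOrderedRing M],
  ASR M → ∀ (h s : M) (lam η θ : ℝ), 0 < lam → 0 < η → 0 < θ →
  ∃ g L : M, ‖g - s‖ ≤ η ∧ 0 ≤ L ∧ LI (lam • (1 : M) + h * g * h) L ∧ SmT θ L

def CoreStepLP : Prop := ∀ (M : Type u) [CStarAlgebra M] [PartialOrder M] [StarOrderedRing M],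
  ASR M → ∀ (a b X₀ X₁ : M) (ε κ θ : ℝ), 0 < ε → 0 < κ → 0 < θ →
  ∃ (X L : M) (δ : ℝ), 0 < δ ∧ 0 ≤ L ∧ SmT θ L ∧ ‖b * X * a - b * X₀ * a‖ ≤ κ ∧
    BelL ε δ (b * X₁ * a) (b * X * a) L

def CoreLP : Prop := ∀ (M : Type u) [CStarAlgebra M] [PartialOrder M] [StarOrderedRing M],
  ASR M → ∀ (a b : M) (ε θ : ℝ), 0 < ε → 0 < θ → ∀ (n : ℕ) (X : Fin n → M),
  ∃ (Y : M) (δ : ℝ) (L : Fin n → M), 0 < δ ∧ ∀ i, 0 ≤ L i ∧ SmT θ (L i) ∧
    BelL ε δ (b * X i * a) (b * Y * a) (L i)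

/-- Approximate stable rank one passes to matrices. -/
def MatASRP : Prop := ∀ (M : Type u) [CStarAlgebra M] [PartialOrder M] [StarOrderedRing M],
  ASR M → ∀ (ν : Type) [Fintype ν] [DecidableEq ν], ASR (CStarMatrix ν ν M)

/-! ## Rank functions -/

def PassLP : Prop := ∀ (M : Type u) [CStarAlgebra M] [PartialOrder M] [StarOrderedRing M]
  (v w L : M) (ε δ θ : ℝ), 0 ≤ L → 0 < δ → 0 < θ → BelL ε δ v w L →
  ∃ s : ℝ, 0 < s ∧ ∀ σ : QTrace M,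
    σ.dim (one1 (cut (cut (sq v) ε * cut (sq v) ε) θ)) ≤
      σ.dim (one1 (cut (sq w) s)) + σ.dim (one1 L)

def DisjLP : Prop := ∀ (M : Type u) [CStarAlgebra M] [PartialOrder M] [StarOrderedRing M]
  (w y z c L : M) (δ θ C : ℝ), 0 ≤ y → IsSelfAdjoint z → 0 ≤ c → 0 ≤ L → 0 < δ → 0 < θ →
  ‖w * y * star w‖ ≤ δ * θ / 6 → δ • (z * z) ≤ z * (sq w + L) * z → y + z * z ≤ C • c →
  ∀ σ : QTrace M, σ.dim (one1 (cut y θ)) + σ.dim (one1 (cut (z * z) θ)) ≤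
    σ.dim (one1 c) + σ.dim (one1 L)

/-! ## Tracial comparison and divisibility -/

def XMaxLP : Prop := ∀ (M : Type u) [CStarAlgebra M] [PartialOrder M] [StarOrderedRing M],
  ASR M → ∀ a b : M, 0 ≤ a → 0 ≤ b →
  (∀ (φ : TState M) (σ : QTrace M), IsQ φ σ → σ.dim (one1 a) < σ.dim (one1 b)) →
  ∀ δ ε : ℝ, 0 < δ → 0 < ε → ∃ (X : M) (η : ℝ), 0 < η ∧ ∀ φ : TState M,
    (φ.φ (cfc (ramp (δ / 2) δ) a *
      (1 - cfc (ramp (η / 2) η) (cfc (ramp (δ / 2) δ) a * sq (b * X * a) *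
        cfc (ramp (δ / 2) δ) a)) * cfc (ramp (δ / 2) δ) a)).re ≤ ε

def TTrLP : Prop := ∀ (M : Type u) [CStarAlgebra M] [PartialOrder M] [StarOrderedRing M],
  ASR M → ∀ a b : M, 0 ≤ a → 0 ≤ b →
  (∀ (φ : TState M) (σ : QTrace M), IsQ φ σ → σ.dim (one1 a) < σ.dim (one1 b)) →
  ∀ δ ε : ℝ, 0 < δ → 0 < ε → ∃ y h : M, 0 ≤ h ∧ a ≤ star y * b * y + h + δ • (1 : M) ∧
    ∀ φ : TState M, (φ.φ h).re ≤ ε

def TTrMLP : Prop := ∀ (M : Type u) [CStarAlgebra M] [PartialOrder M] [StarOrderedRing M],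
  ASR M → ∀ (ι κ : Type) [Fintype ι] [DecidableEq ι] [Fintype κ] [DecidableEq κ]
    (a : CStarMatrix ι ι M) (b : CStarMatrix κ κ M), 0 ≤ a → 0 ≤ b →
  (∀ (φ : TState M) (σ : QTrace M), IsQ φ σ → σ.dim a < σ.dim b) →
  ∀ δ ε : ℝ, 0 < δ → 0 < ε → ∃ (y : CStarMatrix κ ι M) (h : CStarMatrix ι ι M), 0 ≤ h ∧
    a ≤ y.conjTranspose * b * y + h + δ • (1 : CStarMatrix ι ι M) ∧
    ∀ (φ : TState M) (σ : QTrace M), IsQ φ σ → σ.τ ι h ≤ ε

def TCompLP : Prop := ∀ (M : Type u) [CStarAlgebra M] [PartialOrder M] [StarOrderedRing M]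
  (C : ℝ), ASR M → 0 ≤ C → DomT M C → TComp M

def MinCLP : Prop := ∀ (M : Type u) [CStarAlgebra M] [PartialOrder M] [StarOrderedRing M],
  ASR M → ∀ (a b : M) (m : ℝ), 0 ≤ a → 0 ≤ b →
  (∀ (φ : TState M) (σ : QTrace M), IsQ φ σ → m ≤ σ.dim (one1 a) ∧ m ≤ σ.dim (one1 b)) →
  ∀ ε : ℝ, 0 < ε → ∃ (X : M) (s : ℝ), 0 < s ∧ ∀ (φ : TState M) (σ : QTrace M), IsQ φ σ →
    m - ε ≤ σ.dim (one1 (cut (sq (b * X * a)) s))

def MinMLP : Prop := ∀ (M : Type u) [CStarAlgebra M] [PartialOrder M] [StarOrderedRing M],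
  ASR M → ∀ (ι κ : Type) [Fintype ι] [DecidableEq ι] [Fintype κ] [DecidableEq κ]
    (a : CStarMatrix ι ι M) (b : CStarMatrix κ κ M) (m : ℝ), 0 ≤ a → 0 ≤ b →
  (∀ (φ : TState M) (σ : QTrace M), IsQ φ σ → m ≤ σ.dim a ∧ m ≤ σ.dim b) →
  ∀ ε : ℝ, 0 < ε → ∃ (X : CStarMatrix κ ι M) (s : ℝ), 0 < s ∧
    ∀ (φ : TState M) (σ : QTrace M), IsQ φ σ →
      m - ε ≤ σ.dim (cut ((b * X * a).conjTranspose * (b * X * a)) s)

def NearCLP : Prop := ∀ (B : Type u) [CStarAlgebra B] [PartialOrder B] [StarOrderedRing B],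
  ASR B → NoFin B → ∀ (k : ℕ) (ε : ℝ), 0 < ε → ∃ (f : B) (s : ℝ), 0 ≤ f ∧ 0 < s ∧
    ∀ (φ : TState B) (σ : QTrace B), IsQ φ σ →
      1 / 2 ^ k - ε ≤ σ.dim (one1 (cut f s)) ∧ σ.dim (one1 f) ≤ 1 / 2 ^ k + ε

def TDivLP : Prop := ∀ (B : Type u) [CStarAlgebra B] [PartialOrder B] [StarOrderedRing B]
  (C : ℝ), ASR B → NoFin B → 0 ≤ C → DomT B C → TDiv B

/-! ## Small full elements -/

/-- Halving at one tracial state. -/
def HalfP : Prop := ∀ (B : Type u) [CStarAlgebra B] [PartialOrder B] [StarOrderedRing B],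
  NoFin B → ∀ (φ : TState B) (c : B), 0 ≤ c → 0 < (φ.φ c).re →
  ∃ d : B, 0 ≤ d ∧ 0 < (φ.φ d).re ∧ ∀ σ : QTrace B, 2 * σ.dim (one1 d) ≤ σ.dim (one1 c)

/-- Invariant full elements of small rank. -/
def SmallEP : Prop := ∀ (A : Type u) [CStarAlgebra A] [PartialOrder A] [StarOrderedRing A]
  (G : Type) [Group G] [Fintype G] (α : G → A ≃⋆ₐ[ℂ] A), IsAct α → Simp A → NoFin A →
  Nonempty (TState A) → ∀ θ : ℝ, 0 < θ → ∃ (e : A) (J : ℕ) (r : Fin J → A), 0 ≤ e ∧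
    (∀ g, α g e = e) ∧ ∑ i, r i * (e * e) * star (r i) = 1 ∧
    ∀ σ : QTrace A, σ.dim (one1 e) ≤ θ

/-! ## Columns over a subalgebra, ranks measured in the big algebra -/

section
variable {C R : Type u} [CStarAlgebra C] [PartialOrder C] [StarOrderedRing C]
  [CStarAlgebra R] [PartialOrder R] [StarOrderedRing R]

/-- The rank of the matrix `L` is at most `θ` at the tracial states of `R`. -/
def SmJ (j : C →⋆ₐ[ℂ] R) (θ : ℝ) {ι : Type} [Fintype ι] [DecidableEq ι]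
    (L : CStarMatrix ι ι C) : Prop :=
  ∀ (φ : TState R) (σ : QTrace R), IsQ φ σ → σ.dim (mp j L) ≤ θ

/-- Columns of length `n` are limits of columns which are left invertible up to elements of
small rank. -/
def TSJ (j : C →⋆ₐ[ℂ] R) (n : ℕ) : Prop :=
  ∀ (x : Fin n → C) (η θ : ℝ), 0 < η → 0 < θ → ∃ (x' a : Fin n → C) (b L : C),
    (∀ i, ‖x i - x' i‖ ≤ η) ∧ 0 ≤ L ∧ ∑ i, a i * x' i + b * L = 1 ∧ SmJ j θ (one1 L)

end

/-- Rectangular matrices. -/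
def RectP : Prop := ∀ (C R : Type u) [CStarAlgebra C] [PartialOrder C] [StarOrderedRing C]
  [CStarAlgebra R] [PartialOrder R] [StarOrderedRing R] (j : C →⋆ₐ[ℂ] R) (n : ℕ),
  Function.Injective j → 0 < n → TSJ j n →
  ∀ (J : ℕ) (ρ : Type) [Fintype ρ] [DecidableEq ρ], Fintype.card ρ + 1 = J + n →
  ∀ (X : CStarMatrix ρ (Fin J) C) (η θ : ℝ), 0 < η → 0 < θ →
  ∃ (X' : CStarMatrix ρ (Fin J) C) (a : CStarMatrix (Fin J) ρ C)
    (b L : CStarMatrix (Fin J) (Fin J) C),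
    ‖X - X'‖ ≤ η ∧ 0 ≤ L ∧ a * X' + b * L = 1 ∧ SmJ j θ L

/-! ## The subalgebra of the crossed product given by an invariant element -/

/-- `j` embeds `C` onto the closure of the elements `∑ (μ g + e (y g) e) u g`. -/
structure IsSubE {A R C : Type u} [CStarAlgebra A] [CStarAlgebra R] [CStarAlgebra C]
    {G : Type} [Fintype G] (k : A →⋆ₐ[ℂ] R) (w : G → R) (e : A) (j : C →⋆ₐ[ℂ] R) : Prop where
  inj : Function.Injective j
  mem : ∀ (μ : G → ℂ) (y : G → A), ∃ c, j c = ∑ g, (μ g • (1 : R) + k (e * y g * e)) * w g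
  dense : ∀ (c : C) (ε : ℝ), 0 < ε → ∃ (μ : G → ℂ) (y : G → A),
    ‖j c - ∑ g, (μ g • (1 : R) + k (e * y g * e)) * w g‖ ≤ ε

def SubEP : Prop := ∀ (A R : Type u) [CStarAlgebra A] [PartialOrder A] [StarOrderedRing A]
  [CStarAlgebra R] [PartialOrder R] [StarOrderedRing R] (G : Type) [Group G] [Fintype G]
  (α : G → A ≃⋆ₐ[ℂ] A) (k : A →⋆ₐ[ℂ] R) (w : G → R), IsAct α → IsCross α k w →
  ∀ e : A, 0 ≤ e → (∀ g, α g e = e) →
  ∃ (C : Type u) (_ : CStarAlgebra C) (_ : PartialOrder C) (_ : StarOrderedRing C)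
    (j : C →⋆ₐ[ℂ] R), IsSubE k w e j

/-- Columns whose length is the order of the group. -/
def TSCP : Prop := ∀ (A R : Type u) [CStarAlgebra A] [PartialOrder A] [StarOrderedRing A]
  [CStarAlgebra R] [PartialOrder R] [StarOrderedRing R] (G : Type) [Group G] [Fintype G]
  (α : G → A ≃⋆ₐ[ℂ] A) (k : A →⋆ₐ[ℂ] R) (w : G → R), IsAct α → IsCross α k w → ASR A →
  ∀ e : A, 0 ≤ e → (∀ g, α g e = e) →
  ∀ (C : Type u) [CStarAlgebra C] [PartialOrder C] [StarOrderedRing C] (j : C →⋆ₐ[ℂ] R),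
  IsSubE k w e j → TSJ j (Fintype.card G)

/-- Approximate stable rank one passes to the crossed product. -/
def AsrRP : Prop := ∀ (A R : Type u) [CStarAlgebra A] [PartialOrder A] [StarOrderedRing A]
  [CStarAlgebra R] [PartialOrder R] [StarOrderedRing R] (G : Type) [Group G] [Fintype G]
  (α : G → A ≃⋆ₐ[ℂ] A) (k : A →⋆ₐ[ℂ] R) (w : G → R), IsAct α → IsCross α k w →
  Simp A → NoFin A → ASR A → ASR R

/-- The crossed product exists. -/
def CrossExP : Prop := ∀ (A : Type u) [CStarAlgebra A] [PartialOrder A] [StarOrderedRing A]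
  (G : Type) [Group G] [Fintype G] (α : G → A ≃⋆ₐ[ℂ] A), IsAct α →
  ∃ (R : Type u) (_ : CStarAlgebra R) (_ : PartialOrder R) (_ : StarOrderedRing R)
    (k : A →⋆ₐ[ℂ] R) (w : G → R), IsCross α k w

/-- Approximate stable rank one passes from the crossed product to the fixed point algebra. -/
def AsrBP : Prop := ∀ (A : Type u) [CStarAlgebra A] [PartialOrder A] [StarOrderedRing A]
  (B : Type u) [CStarAlgebra B] [PartialOrder B] [StarOrderedRing B]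
  (R : Type u) [CStarAlgebra R] [PartialOrder R] [StarOrderedRing R]
  (G : Type) [Group G] [Fintype G] (α : G → A ≃⋆ₐ[ℂ] A) (j : B →⋆ₐ[ℂ] A)
  (k : A →⋆ₐ[ℂ] R) (w : G → R), IsAct α → IsFix α j → IsCross α k w → Simp A →
  ∀ C : ℝ, 0 ≤ C → DomT A C → ASR R → ASR B

end RC
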